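import Pool.Agent.X187.KB.Tra

/-!
# MP_d717ad_an, Q1 on the line (`N = 1`): the `(k,a)`-Schwartz type space is not invariant for
`0 ≤ k < 1/2`

On the line the root system is `{±1}` and `⟨k⟩ = k`.  For every `a > 0` and `0 ≤ k < 1/2` with
`2k + 1 + a - 2 > 0` the function `|x|^{1-2k} exp(-|x|^a/a)` lies in `S_{k,a}(ℝ)` but its
`(k,a)`-generalized Fourier transform does not.  This includes `a = 2` (every `0 ≤ k < 1/2`; for
`k = 0` the classical Fourier transform) and `a = 1` (every `0 < k < 1/2`), case (1) of the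
question.
-/

open MeasureTheory Set
open scoped Real

namespace Pool.Agent.Results.MP_d717ad_an.FailsOnLine

/-- The Dunkl Laplacian on the line,
`Δ_k f(x) = f''(x) + (2k/x) f'(x) - k (f(x) - f(-x)) / x²`. -/
noncomputable def dunklLaplacian (k : ℝ) (f : ℝ → ℂ) (x : ℝ) : ℂ :=
  deriv (deriv f) x + (2 * k / x : ℝ) * deriv f x - (k : ℂ) * ((f x - f (-x)) / (x : ℂ) ^ 2)

/-- The radial derivative `∂^l f / ∂‖x‖^l (x) = d^l/dr^l f(r ω)` at `r = |x|`, `ω = x / |x|`. -/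
noncomputable def radialDeriv (l : ℕ) (f : ℝ → ℂ) (x : ℝ) : ℂ :=
  iteratedDeriv l (fun r : ℝ => f (r * (x / |x|))) |x|

/-- `S_{k,a}(ℝ)`: functions smooth on `ℝ \ {0}` such that
`(|x|^a)^α (|x|^{2-a} Δ_k)^β (|x|^l ∂^l f/∂|x|^l)` is bounded on `ℝ \ {0}` for all `α, β, l`. -/
def schwartzType (k a : ℝ) : Set (ℝ → ℂ) :=
  {f | ContDiffOn ℝ (⊤ : ℕ∞) f {0}ᶜ ∧ ∀ α β l : ℕ, ∃ C : ℝ, ∀ x : ℝ, x ≠ 0 →
    ‖(((|x| ^ a) ^ α : ℝ) : ℂ) *
      ((fun (g : ℝ → ℂ) (y : ℝ) => ((|y| ^ (2 - a) : ℝ) : ℂ) * dunklLaplacian k g y)^[β]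
        (fun y => ((|y| ^ l : ℝ) : ℂ) * radialDeriv l f y)) x‖ ≤ C}

/-- The normalised Bessel function `(w/2)^{-ν} J_ν(w) = ∑ (-1)^m (w/2)^{2m} / (m! Γ(m+ν+1))`. -/
noncomputable def besselTilde (ν w : ℝ) : ℝ :=
  ∑' m : ℕ, (-1) ^ m * (w / 2) ^ (2 * m) / (m.factorial * Real.Gamma (m + ν + 1))

/-- The `(k,a)`-generalized Fourier transform on the line, written with its integral kernel
`B_{k,a}(x,y) = Γ((2k+a-1)/a) (J̃_{(2k-1)/a}(w) + (x y) / (a i)^{2/a} J̃_{(2k+1)/a}(w))`,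
`w = (2/a)|xy|^{a/2}` (Ben Saïd–Kobayashi–Ørsted), and the normalising constant
`1 / ∫ exp(-|x|^a/a) |x|^{2k+a-2} dx`.  The two parts of the kernel are integrated separately. -/
noncomputable def transform (k a : ℝ) (f : ℝ → ℂ) (y : ℝ) : ℂ :=
  ((Real.Gamma ((2 * k + a - 1) / a) /
      ∫ x : ℝ, Real.exp (-|x| ^ a / a) * |x| ^ (2 * k + a - 2) : ℝ) : ℂ) *
   ((∫ x : ℝ, ((besselTilde ((2 * k - 1) / a) (2 / a * |x * y| ^ (a / 2))
        * |x| ^ (2 * k + a - 2) : ℝ) : ℂ) * f x)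
    + Complex.exp (-(π / a : ℝ) * Complex.I) * ((a ^ (-(2 / a)) : ℝ) : ℂ) *
      ∫ x : ℝ, ((x * y * besselTilde ((2 * k + 1) / a) (2 / a * |x * y| ^ (a / 2))
        * |x| ^ (2 * k + a - 2) : ℝ) : ℂ) * f x)

/-- The function `|x|^{1-2k} exp(-|x|^a/a)`. -/
noncomputable def testFn (k a : ℝ) (x : ℝ) : ℂ :=
  ((|x| ^ (1 - 2 * k) * Real.exp (-|x| ^ a / a) : ℝ) : ℂ)

/-- **Non-invariance on the line.** Let `a > 0`, `0 ≤ k < 1/2` and `2k + 1 + a - 2 > 0`. Then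
`|x|^{1-2k} exp(-|x|^a/a)` belongs to `S_{k,a}(ℝ)`, its `(k,a)`-generalized Fourier transform does
not, and in particular `F_{k,a}(S_{k,a}(ℝ)) ≠ S_{k,a}(ℝ)`. -/
theorem result (k a : ℝ) (_hk : 0 ≤ k) (hk1 : k < 1 / 2) (ha : 0 < a)
    (hka : 0 < 2 * k + 1 + a - 2) :
    testFn k a ∈ schwartzType k a ∧ transform k a (testFn k a) ∉ schwartzType k a ∧
      transform k a '' schwartzType k a ≠ schwartzType k a := by
  have h1 : testFn k a ∈ schwartzType k a :=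
    Pool.Agent.X187.KB.tf_mem (k := k) ha (by linarith)
  have h2 : transform k a (testFn k a) ∉ schwartzType k a :=
    Pool.Agent.X187.KB.not_mem (k := k) ha (by linarith) (by linarith)
  refine ⟨h1, h2, fun h => h2 ?_⟩
  rw [← h]
  exact ⟨_, h1, rfl⟩

end Pool.Agent.Results.MP_d717ad_an.FailsOnLine
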